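import Mathlib

/-!
# P-positions of exact slow Nim: semilinear slices and explicit cones

The game on `n` piles in which a move removes one token from each of exactly `k` nonempty piles.

* For every `B` the set of the P-positions with at most `k` piles of more than `B` tokens is
  semilinear. So a set of P-positions which is not semilinear needs positions with `k + 1` unbounded
  piles.
* Let `J` be a set of `k - 1` piles. On the cone of the positions for which every pile of `J` has at
  least as many tokens as all the piles outside of `J` together, the P-positions are those of the game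
  on the piles outside of `J` in which a move removes one token from each of at least one and at most
  `k` nonempty piles. For `n ≤ 2 k - 1` they are the positions with an even number of tokens on each pile outside
  of `J`, and for `n = 2 k` those for which all these numbers have the same parity. A version with
  fewer than `k - 1` piles in `J` holds for all `n`.
* For `n = 2 k` the P-positions are invariant under adding one token to each pile (the answer to a
  move is the move on the other `k` piles); so they are semilinear if and only if those for `2 k - 1`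
  piles are.

Outline of the first part: fix the set `U` of the piles which may be large and the numbers of tokens
on the other piles. All moves but the move on `U` (if `U` has `k` elements) decrease the total number
of tokens outside of `U`. So, by induction, the slice `S` of the P-positions is given by
`S = Q \ (u + S)` with a semilinear set `Q` and a vector `u`: along each line with direction `u` the
points of a run of points of `Q` are alternately in `S` and not in `S`, starting with the first point
of the run, and this is a description of `S` by addition, intersections, complements and images.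
-/

set_option autoImplicit false

namespace Pool.Agent.Results.MP_ab1118_co.SlicesAndCones

open Set
open scoped Pointwise

/-- The position after removing one token from each pile of `S`. -/
def move {n : ℕ} (x : Fin n → ℕ) (S : Finset (Fin n)) : Fin n → ℕ :=
  fun i => if i ∈ S then x i - 1 else x i

/-- `P` is the set of the P-positions of the game on `n` piles in which a move removes one token from
each of exactly `k` nonempty piles. -/
def IsPPos (n k : ℕ) (P : Set (Fin n → ℕ)) : Prop :=
  ∀ x, x ∈ P ↔ ∀ S : Finset (Fin n), S.card = k → (∀ i ∈ S, 1 ≤ x i) → move x S ∉ P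

/-- `P` is the set of the P-positions of the game on the piles outside of `J` in which a move removes
one token from each of at least `a` and at most `k` nonempty piles outside of `J` (the numbers of
tokens on the piles of `J` play no role). -/
def IsSlowPPos {n : ℕ} (J : Finset (Fin n)) (a k : ℕ) (P : Set (Fin n → ℕ)) : Prop :=
  ∀ x, x ∈ P ↔ ∀ S : Finset (Fin n), Disjoint S J → a ≤ S.card → S.card ≤ k →
    (∀ i ∈ S, 1 ≤ x i) → move x S ∉ P

/-- The solution `P` of `P = Q \ (u + P)` is semilinear if `Q` is. -/
theorem alternate {M : Type*} [AddCancelCommMonoid M] [AddMonoid.FG M] {P Q : Set M} (u : M)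
    (w : M →+ ℕ) (hw : 0 < w u) (hQ : IsSemilinearSet Q)
    (h : ∀ x, x ∈ P ↔ x ∈ Q ∧ ¬ ∃ y ∈ P, x = u + y) : IsSemilinearSet P := by
  -- the runs of points of `Q`
  let f : M × ℕ × ℕ →+ M :=
    { toFun := fun q => q.1 + q.2.1 • u
      map_zero' := by simp
      map_add' := by
        intro a b
        simp only [Prod.fst_add, Prod.snd_add, add_smul]
        abel }
  let g : M × ℕ × ℕ →+ M × ℕ :=
    { toFun := fun q => (q.1, q.2.1 + q.2.2)
      map_zero' := by simp
      map_add' := by
        intro a b
        ext1
        · simp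
        · simp only [Prod.snd_add, Prod.fst_add, Prod.mk_add_mk]; omega }
  let d : M × ℕ →+ M × ℕ :=
    { toFun := fun q => (q.1, 2 * q.2)
      map_zero' := by simp
      map_add' := by
        intro a b
        ext1
        · simp
        · simp only [Prod.snd_add, Prod.mk_add_mk]; omega }
  let e : M × ℕ →+ M :=
    { toFun := fun q => q.1 + (2 * q.2) • u
      map_zero' := by simp
      map_add' := by
        intro a b
        simp only [Prod.fst_add, Prod.snd_add, mul_add, add_smul]
        abel }
  have hRc : IsSemilinearSet (g '' (f ⁻¹' Qᶜ)) := ((hQ.compl).preimage f).image g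
  have hR : IsSemilinearSet (g '' (f ⁻¹' Qᶜ))ᶜ := hRc.compl
  have hRmem : ∀ y j, (y, j) ∈ (g '' (f ⁻¹' Qᶜ))ᶜ ↔ ∀ i ≤ j, y + i • u ∈ Q := by
    intro y j
    simp only [mem_compl_iff, mem_image, mem_preimage, not_exists, not_and]
    constructor
    · intro H i hi
      by_contra hc
      exact H (y, i, j - i) hc (by
        simp only [g, AddMonoidHom.coe_mk, ZeroHom.coe_mk]
        exact Prod.ext rfl (Nat.add_sub_cancel' hi))
    · rintro H ⟨y', i, l⟩ hq hgq
      simp only [g, AddMonoidHom.coe_mk, ZeroHom.coe_mk, Prod.mk.injEq] at hgq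
      obtain ⟨rfl, rfl⟩ := hgq
      exact hq (H i (by omega))
  have hA : IsSemilinearSet (Q \ (u +ᵥ Q)) := hQ.sdiff (hQ.vadd u)
  have key : P = e '' ((AddMonoidHom.fst M ℕ) ⁻¹' (Q \ (u +ᵥ Q)) ∩ d ⁻¹' (g '' (f ⁻¹' Qᶜ))ᶜ) := by
    apply Set.Subset.antisymm
    · -- every point of `P` is at an even distance from the start of its run
      intro x hx
      induction hn : w x using Nat.strong_induction_on generalizing x with
      | _ m ih =>
      subst hn
      have hxQ := ((h x).1 hx).1
      by_cases hxu : x ∈ u +ᵥ Q
      · obtain ⟨z, hz, rfl⟩ := hxu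
        simp only [vadd_eq_add] at hx hxQ ih ⊢
        have hzP : z ∉ P := fun hzP => ((h _).1 hx).2 ⟨z, hzP, rfl⟩
        have : ∃ y ∈ P, z = u + y := by
          by_contra hc
          exact hzP ((h z).2 ⟨hz, hc⟩)
        obtain ⟨y', hy', rfl⟩ := this
        obtain ⟨⟨y, t⟩, ⟨hyA, hyR⟩, hyt⟩ := ih (w y') (by simp only [map_add]; omega) hy' rfl
        have hyR' := (hRmem y (2 * t)).1 hyR
        have hyt' : y + (2 * t) • u = y' := hyt
        refine ⟨(y, t + 1), ⟨hyA, ?_⟩, ?_⟩
        · refine (hRmem y (2 * (t + 1))).2 fun i hi => ?_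
          by_cases h1 : i ≤ 2 * t
          · exact hyR' i h1
          · by_cases h2 : i = 2 * t + 1
            · subst h2
              have : y + (2 * t + 1) • u = u + y' := by
                rw [← hyt', add_smul, one_smul]; abel
              rw [this]; exact hz
            · have h3 : i = 2 * t + 2 := by omega
              subst h3
              have : y + (2 * t + 2) • u = u + (u + y') := by
                rw [← hyt', add_smul, two_smul ℕ u]; abel
              rw [this]; exact hxQ
        · show y + (2 * (t + 1)) • u = u + (u + y')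
          rw [← hyt', mul_add, add_smul, mul_one, two_smul ℕ u]; abel
      · refine ⟨(x, 0), ⟨⟨hxQ, hxu⟩, ?_⟩, ?_⟩
        · refine (hRmem x (2 * 0)).2 fun i hi => ?_
          have : i = 0 := by omega
          subst this
          simpa using hxQ
        · show x + (2 * 0) • u = x
          simp
    · rintro x ⟨⟨y, t⟩, ⟨hyA, hyR⟩, rfl⟩
      have hyR' := (hRmem y (2 * t)).1 hyR
      have hyA' : y ∈ Q \ (u +ᵥ Q) := hyA
      show y + (2 * t) • u ∈ P
      have : ∀ j ≤ 2 * t, (y + j • u ∈ P ↔ Even j) := by
        intro j
        induction j with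
        | zero =>
          intro _
          simp only [zero_smul, add_zero, Even.zero, iff_true]
          refine (h y).2 ⟨hyA'.1, ?_⟩
          rintro ⟨y', hy', rfl⟩
          exact hyA'.2 ⟨y', ((h y').1 hy').1, rfl⟩
        | succ j ihj =>
          intro hj
          have h1 : y + (j + 1) • u = u + (y + j • u) := by rw [add_smul, one_smul]; abel
          have h2 := hyR' (j + 1) hj
          rw [Nat.even_add_one, ← ihj (by omega)]
          constructor
          · intro h3 h4
            exact ((h _).1 h3).2 ⟨_, h4, h1⟩
          · intro h3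
            refine (h _).2 ⟨h2, ?_⟩
            rintro ⟨y', hy', h4⟩
            rw [h1] at h4
            exact h3 (by rw [add_left_cancel h4]; exact hy')
      exact (this (2 * t) le_rfl).2 (even_two_mul t)
  rw [key]
  exact ((hA.preimage (AddMonoidHom.fst M ℕ)).inter (hR.preimage d)).image e

/-- The indicator vector of `S`. -/
def ind {n : ℕ} (S : Finset (Fin n)) : Fin n → ℕ := fun i => if i ∈ S then 1 else 0

theorem ind_add_move {n : ℕ} (x : Fin n → ℕ) (S : Finset (Fin n)) (h : ∀ i ∈ S, 1 ≤ x i) :
    ind S + move x S = x := by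
  funext i
  by_cases hi : i ∈ S
  · have := h i hi
    simp only [ind, move, Pi.add_apply, hi, if_true]; omega
  · simp [ind, move, hi]

theorem move_ind_add {n : ℕ} (x : Fin n → ℕ) (S : Finset (Fin n)) : move (ind S + x) S = x := by
  funext i
  by_cases hi : i ∈ S <;> simp [ind, move, hi]

theorem sum_move_lt {n : ℕ} (x : Fin n → ℕ) (S T : Finset (Fin n)) {i : Fin n} (hi : i ∈ S)
    (hiT : i ∈ T) (h : ∀ i ∈ S, 1 ≤ x i) : ∑ j ∈ T, move x S j < ∑ j ∈ T, x j := by
  refine Finset.sum_lt_sum (fun j _ => ?_) ⟨i, hiT, ?_⟩
  · unfold move; split_ifs <;> omega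
  · have := h i hi
    unfold move; rw [if_pos hi]; omega

/-- The positions with the given numbers of tokens on the piles outside of `U`. -/
def slice {n : ℕ} (U : Finset (Fin n)) (b : Fin n → ℕ) : Set (Fin n → ℕ) :=
  {x | ∀ i ∉ U, x i = b i}

theorem slice_semilinear {n : ℕ} (U : Finset (Fin n)) (b : Fin n → ℕ) :
    IsSemilinearSet (slice U b) := by
  have : slice U b = ⋂ i ∈ Uᶜ, (Pi.evalAddMonoidHom (fun _ : Fin n => ℕ) i) ⁻¹' {b i} := by
    ext x
    simp [slice]
  rw [this]
  exact IsSemilinearSet.biInter_finset fun i _ =>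
    (IsSemilinearSet.singleton (b i)).preimage (Pi.evalAddMonoidHom (fun _ : Fin n => ℕ) i)

/-- The slices of the P-positions with at most `k` free piles are semilinear. -/
theorem slice_inter_semilinear {n k : ℕ} (hk : 1 ≤ k) {P : Set (Fin n → ℕ)} (hP : IsPPos n k P)
    (U : Finset (Fin n)) (hU : U.card ≤ k) :
    ∀ b : Fin n → ℕ, IsSemilinearSet (P ∩ slice U b) := by
  classical
  intro b
  induction hs : ∑ i ∈ Uᶜ, b i using Nat.strong_induction_on generalizing b with
  | _ s ih =>
  subst hs
  -- the positions with a move on `S ≠ U` to a P-position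
  let T : Finset (Fin n) → Set (Fin n → ℕ) := fun S =>
    {x | x ∈ slice U b ∧ (∀ i ∈ S, 1 ≤ x i) ∧ move x S ∈ P}
  have hT : ∀ S ∈ (Finset.univ : Finset (Finset (Fin n))).filter
      (fun S => S.card = k ∧ S ≠ U), IsSemilinearSet (T S) := by
    intro S hS
    obtain ⟨hSk, hSU⟩ := (Finset.mem_filter.1 hS).2
    have : ∃ i ∈ S, i ∉ U := by
      by_contra hc
      push Not at hc
      exact hSU (Finset.eq_of_subset_of_card_le hc (by omega))
    obtain ⟨i, hiS, hiU⟩ := this
    by_cases hb : ∀ j ∈ S, j ∉ U → 1 ≤ b j
    · have h1 : T S = slice U b ∩ (ind S +ᵥ (P ∩ slice U (move b S))) := by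
        ext x
        constructor
        · rintro ⟨hx1, hx2, hx3⟩
          refine ⟨hx1, ⟨move x S, ⟨hx3, fun j hj => ?_⟩, ind_add_move x S hx2⟩⟩
          unfold move; rw [hx1 j hj]
        · rintro ⟨hx1, ⟨y, ⟨hy1, hy2⟩, rfl⟩⟩
          refine ⟨hx1, fun j hj => ?_, ?_⟩
          · simp [ind, hj]
          · show move (ind S + y) S ∈ P
            rw [move_ind_add]; exact hy1
      rw [h1]
      refine (slice_semilinear U b).inter ((ih _ ?_ (move b S) rfl).vadd _)
      refine Finset.sum_lt_sum (fun j _ => ?_) ⟨i, by simpa using hiU, ?_⟩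
      · unfold move; split_ifs <;> omega
      · have := hb i hiS hiU
        unfold move; rw [if_pos hiS]; omega
    · have h1 : T S = ∅ := by
        push Not at hb
        obtain ⟨j, hjS, hjU, hj⟩ := hb
        ext x
        simp only [mem_empty_iff_false, iff_false]
        rintro ⟨hx1, hx2, -⟩
        have := hx2 j hjS
        rw [hx1 j hjU] at this
        omega
      rw [h1]; exact IsSemilinearSet.empty
  have hQ : IsSemilinearSet (slice U b \ ⋃ S ∈ (Finset.univ : Finset (Finset (Fin n))).filter
      (fun S => S.card = k ∧ S ≠ U), T S) :=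
    (slice_semilinear U b).sdiff (IsSemilinearSet.biUnion_finset hT)
  have hQmem : ∀ x, (x ∈ slice U b \ ⋃ S ∈ (Finset.univ : Finset (Finset (Fin n))).filter
      (fun S => S.card = k ∧ S ≠ U), T S) ↔ x ∈ slice U b ∧
      ∀ S : Finset (Fin n), S.card = k → S ≠ U → (∀ i ∈ S, 1 ≤ x i) → move x S ∉ P := by
    intro x
    simp only [Set.mem_sdiff, mem_iUnion, Finset.mem_filter, Finset.mem_univ, true_and, T,
      Set.mem_ofPred_eq, not_exists, not_and]
    constructor
    · rintro ⟨h1, h2⟩
      exact ⟨h1, fun S hS hSU hpos => h2 S ⟨hS, hSU⟩ h1 hpos⟩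
    · rintro ⟨h1, h2⟩
      exact ⟨h1, fun S hS _ hpos => h2 S hS.1 hS.2 hpos⟩
  by_cases hUk : U.card = k
  · refine alternate (ind U) (∑ i, Pi.evalAddMonoidHom (fun _ : Fin n => ℕ) i) ?_ hQ fun x => ?_
    · have : (∑ i, Pi.evalAddMonoidHom (fun _ : Fin n => ℕ) i) (ind U) = U.card := by
        simp [AddMonoidHom.finsetSum_apply, ind]
      rw [this]; omega
    · rw [hQmem]
      constructor
      · rintro ⟨hx1, hx2⟩
        refine ⟨⟨hx2, fun S hS _ hpos => (hP x).1 hx1 S hS hpos⟩, ?_⟩
        rintro ⟨y, ⟨hy1, -⟩, rfl⟩
        refine (hP _).1 hx1 U hUk (fun i hi => by simp [ind, hi]) ?_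
        rw [move_ind_add]; exact hy1
      · rintro ⟨⟨hx1, hx2⟩, hx3⟩
        refine ⟨(hP x).2 fun S hS hpos => ?_, hx1⟩
        by_cases hSU : S = U
        · subst hSU
          intro hm
          refine hx3 ⟨move x S, ⟨hm, fun i hi => ?_⟩, (ind_add_move x S hpos).symm⟩
          unfold move; rw [if_neg hi]; exact hx1 i hi
        · exact hx2 S hS hSU hpos
  · have : P ∩ slice U b = slice U b \ ⋃ S ∈ (Finset.univ : Finset (Finset (Fin n))).filter
        (fun S => S.card = k ∧ S ≠ U), T S := by
      ext x
      rw [hQmem]
      constructor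
      · rintro ⟨hx1, hx2⟩
        exact ⟨hx2, fun S hS _ hpos => (hP x).1 hx1 S hS hpos⟩
      · rintro ⟨hx1, hx2⟩
        refine ⟨(hP x).2 fun S hS hpos => hx2 S hS ?_ hpos, hx1⟩
        rintro rfl
        exact hUk hS
    rw [this]; exact hQ

/-- The P-positions with at most `k` piles of more than `B` tokens are a semilinear set. -/
theorem bounded_semilinear {n k : ℕ} (hk : 1 ≤ k) {P : Set (Fin n → ℕ)} (hP : IsPPos n k P)
    (B : ℕ) : IsSemilinearSet {x ∈ P | (Finset.univ.filter fun i => B < x i).card ≤ k} := by
  classical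
  have : {x ∈ P | (Finset.univ.filter fun i => B < x i).card ≤ k} =
      ⋃ U ∈ (Finset.univ : Finset (Finset (Fin n))).filter (fun U => U.card ≤ k),
        ⋃ b ∈ Fintype.piFinset (fun _ : Fin n => Finset.range (B + 1)), (P ∩ slice U b) := by
    ext x
    simp only [Set.mem_ofPred_eq, mem_iUnion, Finset.mem_filter, Finset.mem_univ, true_and,
      Fintype.mem_piFinset, Finset.mem_range, mem_inter_iff, slice]
    constructor
    · rintro ⟨hx1, hx2⟩
      refine ⟨Finset.univ.filter fun i => B < x i, hx2, fun i => min (x i) B, fun i => ?_, hx1,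
        fun i hi => ?_⟩
      · show min (x i) B < B + 1
        omega
      · simp only [Finset.mem_filter, Finset.mem_univ, true_and, not_lt] at hi
        show x i = min (x i) B
        rw [min_eq_left hi]
    · rintro ⟨U, hU, b, hb, hx1, hx2⟩
      refine ⟨hx1, le_trans (Finset.card_le_card fun i hi => ?_) hU⟩
      simp only [Finset.mem_filter, Finset.mem_univ, true_and] at hi
      by_contra hc
      have := hx2 i hc
      have := hb i
      omega
  rw [this]
  refine IsSemilinearSet.biUnion_finset fun U hU => IsSemilinearSet.biUnion_finset fun b _ => ?_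
  exact slice_inter_semilinear hk hP U (Finset.mem_filter.1 hU).2 b

theorem sum_move_add {n : ℕ} (x : Fin n → ℕ) (S T : Finset (Fin n)) (h : ∀ i ∈ S, 1 ≤ x i) :
    ∑ j ∈ T, move x S j + (T ∩ S).card = ∑ j ∈ T, x j := by
  rw [Finset.card_eq_sum_ones, ← Finset.sum_ite_mem, ← Finset.sum_add_distrib]
  refine Finset.sum_congr rfl fun j _ => ?_
  unfold move
  by_cases hj : j ∈ S
  · have := h j hj
    simp only [hj, if_true]; omega
  · simp [hj]

/-- The status of a position does not depend on the piles of `J`. -/
theorem slow_congr {n : ℕ} {J : Finset (Fin n)} {a k : ℕ} (ha : 1 ≤ a) {P : Set (Fin n → ℕ)}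
    (hP : IsSlowPPos J a k P) : ∀ x y : Fin n → ℕ, (∀ i ∉ J, x i = y i) → (x ∈ P ↔ y ∈ P) := by
  intro x
  induction hs : ∑ i ∈ Jᶜ, x i using Nat.strong_induction_on generalizing x with
  | _ s ih =>
  subst hs
  intro y hxy
  rw [hP x, hP y]
  have key : ∀ S : Finset (Fin n), Disjoint S J → a ≤ S.card → (∀ i ∈ S, 1 ≤ x i) →
      (move x S ∈ P ↔ move y S ∈ P) := by
    intro S hSJ hSa hpos
    refine ih _ ?_ (move x S) rfl (move y S) fun i hi => ?_
    · have h1 := sum_move_add x S Jᶜ hpos
      have h2 : Jᶜ ∩ S = S := by
        rw [Finset.inter_eq_right]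
        intro i hi
        rw [Finset.mem_compl]
        exact Finset.disjoint_left.1 hSJ hi
      rw [h2] at h1
      omega
    · unfold move; rw [hxy i hi]
  have hpos : ∀ S : Finset (Fin n), Disjoint S J → ((∀ i ∈ S, 1 ≤ x i) ↔ ∀ i ∈ S, 1 ≤ y i) := by
    intro S hSJ
    refine forall₂_congr fun i hi => ?_
    rw [hxy i (Finset.disjoint_left.1 hSJ hi)]
  constructor
  · intro h S h1 h2 h3 h4
    rw [← key S h1 h2 ((hpos S h1).2 h4)]
    exact h S h1 h2 h3 ((hpos S h1).2 h4)
  · intro h S h1 h2 h3 h4
    rw [key S h1 h2 h4]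
    exact h S h1 h2 h3 ((hpos S h1).1 h4)

/-- On the cone on which every pile of `J` has at least `1 / (k - |J|)` times the number of tokens of
the piles outside of `J`, the P-positions are those of the game on the piles outside of `J`. -/
theorem cone {n k : ℕ} {P : Set (Fin n → ℕ)} (hP : IsPPos n k P) (J : Finset (Fin n))
    (hJ : J.card < k) (P' : Set (Fin n → ℕ)) (hP' : IsSlowPPos J (k - J.card) k P') :
    ∀ x : Fin n → ℕ, (∀ j ∈ J, ∑ i ∈ Jᶜ, x i ≤ (k - J.card) * x j) → (x ∈ P ↔ x ∈ P') := by
  intro x
  induction hs : ∑ i ∈ Jᶜ, x i using Nat.strong_induction_on generalizing x with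
  | _ s ih =>
  subst hs
  intro hx
  have ha : 1 ≤ k - J.card := by omega
  have hcard : ∀ S : Finset (Fin n), S.card = k → k - J.card ≤ (Jᶜ ∩ S).card := by
    intro S hS
    have h1 : S \ J = Jᶜ ∩ S := by
      ext i; simp [and_comm]
    rw [← h1]
    have := Finset.le_card_sdiff J S
    omega
  have key : ∀ S : Finset (Fin n), S.card = k → (∀ i ∈ S, 1 ≤ x i) →
      (move x S ∈ P ↔ move x S ∈ P') := by
    intro S hS hpos
    have h1 := sum_move_add x S Jᶜ hpos
    have h2 := hcard S hS
    refine ih _ ?_ (move x S) rfl fun j hj => ?_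
    · omega
    · have h3 := hx j hj
      have h4 : x j ≤ move x S j + 1 := by unfold move; split_ifs <;> omega
      have h5 : (k - J.card) * x j ≤ (k - J.card) * (move x S j + 1) := Nat.mul_le_mul le_rfl h4
      rw [mul_add, mul_one] at h5
      omega
  rw [hP x, hP' x]
  constructor
  · intro h T hTJ hT1 hT2 hTpos
    obtain ⟨J', hJ'J, hJ'card⟩ := Finset.exists_subset_card_eq (s := J) (n := k - T.card) (by omega)
    have hdisj : Disjoint T J' := Finset.disjoint_of_subset_right hJ'J hTJ
    have hS : (T ∪ J').card = k := by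
      rw [Finset.card_union_of_disjoint hdisj]; omega
    have hpos : ∀ i ∈ T ∪ J', 1 ≤ x i := by
      intro i hi
      rcases Finset.mem_union.1 hi with hi | hi
      · exact hTpos i hi
      · have h3 := hx i (hJ'J hi)
        have h1 := sum_move_add x T Jᶜ hTpos
        have h2 : Jᶜ ∩ T = T := by
          rw [Finset.inter_eq_right]
          intro i hi
          rw [Finset.mem_compl]
          exact Finset.disjoint_left.1 hTJ hi
        rw [h2] at h1
        by_contra hc
        have h0 : x i = 0 := by omega
        rw [h0, mul_zero] at h3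
        omega
    have h6 := h _ hS hpos
    rw [key _ hS hpos] at h6
    rw [slow_congr ha hP' (move x T) (move x (T ∪ J')) fun i hi => ?_]
    · exact h6
    · unfold move
      have : i ∉ J' := fun h => hi (hJ'J h)
      simp [this]
  · intro h S hS hpos
    rw [key S hS hpos]
    have h2 := hcard S hS
    rw [slow_congr ha hP' (move x S) (move x (Jᶜ ∩ S)) fun i hi => ?_]
    · refine h (Jᶜ ∩ S) ?_ h2 ?_ fun i hi => hpos i (Finset.mem_inter.1 hi).2
      · rw [Finset.disjoint_left]
        intro i hi
        exact Finset.mem_compl.1 (Finset.mem_inter.1 hi).1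
      · rw [← hS]; exact Finset.card_le_card Finset.inter_subset_right
    · unfold move; simp [hi]

/-- The game on the piles outside of `J` with moves on at least one and at most `k` piles, for at most
`k` piles outside of `J`. -/
theorem slow_even {n k : ℕ} (J : Finset (Fin n)) (hJ : Jᶜ.card ≤ k) :
    IsSlowPPos J 1 k {x | ∀ i ∉ J, Even (x i)} := by
  intro x
  simp only [Set.mem_ofPred_eq]
  constructor
  · intro h S hSJ hS1 hSk hpos hm
    obtain ⟨i, hi⟩ := Finset.card_pos.1 hS1
    have hiJ := Finset.disjoint_left.1 hSJ hi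
    have h1 := hm i hiJ
    have h2 := h i hiJ
    have h3 := hpos i hi
    unfold move at h1
    rw [if_pos hi] at h1
    rw [Nat.even_iff] at h1 h2
    omega
  · intro h i hi
    by_contra hc
    refine h (Jᶜ.filter fun i => ¬ Even (x i)) ?_ ?_ ?_ ?_ ?_
    · rw [Finset.disjoint_left]
      intro i hi
      exact Finset.mem_compl.1 (Finset.mem_filter.1 hi).1
    · exact Finset.card_pos.2 ⟨i, Finset.mem_filter.2 ⟨Finset.mem_compl.2 hi, hc⟩⟩
    · exact (Finset.card_filter_le _ _).trans hJ
    · intro j hj
      have := (Finset.mem_filter.1 hj).2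
      rw [Nat.even_iff] at this
      omega
    · intro j hj
      unfold move
      split_ifs with h1
      · have := (Finset.mem_filter.1 h1).2
        rw [Nat.even_iff] at this ⊢
        omega
      · by_contra h2
        exact h1 (Finset.mem_filter.2 ⟨Finset.mem_compl.2 hj, h2⟩)

/-- The game on the piles outside of `J` with moves on at least one and at most `k` piles, for `k + 1`
piles outside of `J`. -/
theorem slow_parity {n k : ℕ} (J : Finset (Fin n)) (hJ : Jᶜ.card = k + 1) :
    IsSlowPPos J 1 k {x | ∀ i ∉ J, ∀ i' ∉ J, x i % 2 = x i' % 2} := by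
  intro x
  simp only [Set.mem_ofPred_eq]
  constructor
  · intro h S hSJ hS1 hSk hpos hm
    obtain ⟨i, hi⟩ := Finset.card_pos.1 hS1
    have hiJ := Finset.disjoint_left.1 hSJ hi
    have : ∃ i' ∈ Jᶜ, i' ∉ S := by
      by_contra hc
      push Not at hc
      have := Finset.card_le_card (show Jᶜ ⊆ S from hc)
      omega
    obtain ⟨i', hi'J, hi'S⟩ := this
    have hi'J := Finset.mem_compl.1 hi'J
    have h1 := hm i hiJ i' hi'J
    have h2 := h i hiJ i' hi'J
    have h3 := hpos i hi
    unfold move at h1
    rw [if_pos hi, if_neg hi'S] at h1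
    omega
  · intro h i₁ hi₁ i₂ hi₂
    by_contra hc
    refine h (Jᶜ.filter fun i => x i % 2 = 1) ?_ ?_ ?_ ?_ ?_
    · rw [Finset.disjoint_left]
      intro i hi
      exact Finset.mem_compl.1 (Finset.mem_filter.1 hi).1
    · rcases Nat.mod_two_eq_zero_or_one (x i₁) with h1 | h1
      · exact Finset.card_pos.2 ⟨i₂, Finset.mem_filter.2 ⟨Finset.mem_compl.2 hi₂, by omega⟩⟩
      · exact Finset.card_pos.2 ⟨i₁, Finset.mem_filter.2 ⟨Finset.mem_compl.2 hi₁, h1⟩⟩
    · have : (Jᶜ.filter fun i => x i % 2 = 1).card < Jᶜ.card := by
        refine Finset.card_lt_card ⟨Finset.filter_subset _ _, fun hsub => ?_⟩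
        have h1 := (Finset.mem_filter.1 (hsub (Finset.mem_compl.2 hi₁))).2
        have h2 := (Finset.mem_filter.1 (hsub (Finset.mem_compl.2 hi₂))).2
        omega
      omega
    · intro j hj
      have := (Finset.mem_filter.1 hj).2
      omega
    · have : ∀ j ∉ J, move x (Jᶜ.filter fun i => x i % 2 = 1) j % 2 = 0 := by
        intro j hj
        unfold move
        split_ifs with h1
        · have := (Finset.mem_filter.1 h1).2
          omega
        · by_contra h2
          exact h1 (Finset.mem_filter.2 ⟨Finset.mem_compl.2 hj, by omega⟩)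
      intro j hj j' hj'
      rw [this j hj, this j' hj']

/-- The P-positions are unique. -/
theorem ppos_unique {n k : ℕ} (hk : 1 ≤ k) {P P' : Set (Fin n → ℕ)} (hP : IsPPos n k P)
    (hP' : IsPPos n k P') : P = P' := by
  ext x
  induction hs : ∑ i, x i using Nat.strong_induction_on generalizing x with
  | _ s ih =>
  subst hs
  rw [hP x, hP' x]
  refine forall_congr' fun S => imp_congr_right fun hS => imp_congr_right fun hpos =>
    not_congr (ih _ ?_ (move x S) rfl)
  obtain ⟨i, hi⟩ := Finset.card_pos.1 (show 0 < S.card by omega)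
  exact sum_move_lt x S Finset.univ hi (Finset.mem_univ i) hpos

/-- The embedding of the game on `m` piles as the positions for which the pile `i` is empty. -/
def emb {m : ℕ} (i : Fin (m + 1)) : (Fin m → ℕ) →+ (Fin (m + 1) → ℕ) where
  toFun y := i.insertNth 0 y
  map_zero' := by
    funext j
    refine Fin.succAboveCases i ?_ (fun j => ?_) j <;> simp
  map_add' y z := by
    funext j
    refine Fin.succAboveCases i ?_ (fun j => ?_) j <;> simp

theorem emb_self {m : ℕ} (i : Fin (m + 1)) (y : Fin m → ℕ) : emb i y i = 0 :=
  Fin.insertNth_apply_same (α := fun _ => ℕ) i 0 y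

theorem emb_succAbove {m : ℕ} (i : Fin (m + 1)) (y : Fin m → ℕ) (j : Fin m) :
    emb i y (i.succAbove j) = y j :=
  Fin.insertNth_apply_succAbove (α := fun _ => ℕ) i 0 y j

theorem move_emb {m : ℕ} (i : Fin (m + 1)) (y : Fin m → ℕ) (S : Finset (Fin m)) :
    move (emb i y) (S.map i.succAboveEmb) = emb i (move y S) := by
  funext j
  refine Fin.succAboveCases i ?_ (fun j => ?_) j
  · rw [emb_self]
    unfold move
    rw [emb_self]
    simp
  · rw [emb_succAbove]
    unfold move
    rw [emb_succAbove]
    have : i.succAbove j ∈ S.map i.succAboveEmb ↔ j ∈ S := by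
      rw [← Fin.coe_succAboveEmb, Finset.mem_map']
    simp only [this]

theorem ppos_emb {m k : ℕ} {P : Set (Fin (m + 1) → ℕ)} (hP : IsPPos (m + 1) k P)
    (i : Fin (m + 1)) : IsPPos m k (emb i ⁻¹' P) := by
  intro y
  rw [mem_preimage, hP]
  constructor
  · intro h S hS hpos
    have := h (S.map i.succAboveEmb) (by rw [Finset.card_map, hS]) (by
      intro j hj
      obtain ⟨j', hj', rfl⟩ := Finset.mem_map.1 hj
      rw [Fin.coe_succAboveEmb, emb_succAbove]
      exact hpos j' hj')
    rw [move_emb] at this
    exact this
  · intro h S hS hpos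
    have hi : i ∉ S := fun hi => by
      have := hpos i hi
      rw [emb_self] at this
      omega
    obtain ⟨T, rfl⟩ : ∃ T : Finset (Fin m), T.map i.succAboveEmb = S := by
      refine ⟨Finset.univ.filter fun j => i.succAbove j ∈ S, ?_⟩
      ext j
      constructor
      · intro hj
        obtain ⟨j', hj', rfl⟩ := Finset.mem_map.1 hj
        exact (Finset.mem_filter.1 hj').2
      · intro hj
        have hji : j ≠ i := fun h => hi (h ▸ hj)
        obtain ⟨j', rfl⟩ := Fin.exists_succAbove_eq hji
        exact Finset.mem_map.2 ⟨j', Finset.mem_filter.2 ⟨Finset.mem_univ _, hj⟩, rfl⟩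
    rw [move_emb]
    refine h T (by rw [← hS, Finset.card_map]) fun j hj => ?_
    have := hpos (i.succAbove j) (Finset.mem_map.2 ⟨j, hj, rfl⟩)
    rwa [emb_succAbove] at this

/-- For `n = 2 k` the status of a position does not change if one token is added to each pile. -/
theorem add_one_iff {n k : ℕ} (hk : 1 ≤ k) (hn : n = 2 * k) {P : Set (Fin n → ℕ)}
    (hP : IsPPos n k P) (x : Fin n → ℕ) : x ∈ P ↔ x + 1 ∈ P := by
  classical
  -- adding a token to each pile and two complementary moves
  have hcomp : ∀ S : Finset (Fin n), move (move (x + 1) S) Sᶜ = x := by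
    intro S
    funext i
    unfold move
    by_cases hi : i ∈ S <;> simp [hi]
  have hforward : ∀ x : Fin n → ℕ, x ∈ P → x + 1 ∈ P := by
    intro x hx
    rw [hP]
    intro S hS hpos hm
    have hcomp : move (move (x + 1) S) Sᶜ = x := by
      funext i
      unfold move
      by_cases hi : i ∈ S <;> simp [hi]
    refine (hP _).1 hm Sᶜ ?_ ?_ ?_
    · rw [Finset.card_compl, Fintype.card_fin]; omega
    · intro i hi
      have : i ∉ S := Finset.mem_compl.1 hi
      unfold move
      rw [if_neg this]
      simp
    · rw [hcomp]; exact hx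
  refine ⟨hforward x, fun h => ?_⟩
  rw [hP]
  intro S hS hpos hm
  have h1 := hforward _ hm
  refine (hP _).1 h S hS (fun i _ => by simp) ?_
  convert h1 using 1
  funext i
  unfold move
  by_cases hi : i ∈ S
  · have := hpos i hi
    simp only [hi, if_true, Pi.add_apply, Pi.one_apply]
    omega
  · simp [hi]

/-- For `n = 2 k` the P-positions are semilinear if and only if those of the game on `2 k - 1` piles
are. -/
theorem semilinear_iff {m k : ℕ} (hk : 1 ≤ k) (hm : m + 1 = 2 * k) {P : Set (Fin (m + 1) → ℕ)}
    (hP : IsPPos (m + 1) k P) {P₀ : Set (Fin m → ℕ)} (hP₀ : IsPPos m k P₀) :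
    IsSemilinearSet P ↔ IsSemilinearSet P₀ := by
  have hemb : ∀ i : Fin (m + 1), emb i ⁻¹' P = P₀ := fun i => ppos_unique hk (ppos_emb hP i) hP₀
  constructor
  · intro h
    rw [← hemb 0]
    exact h.preimage (emb 0)
  · intro h
    have hadd : ∀ (c : ℕ) (x : Fin (m + 1) → ℕ), x ∈ P ↔ x + c • (1 : Fin (m + 1) → ℕ) ∈ P := by
      intro c
      induction c with
      | zero => intro x; simp
      | succ c ihc =>
        intro x
        rw [ihc x, add_one_iff hk hm hP, add_smul, one_smul, add_assoc]
    let g : Fin (m + 1) → (Fin m → ℕ) × ℕ →+ (Fin (m + 1) → ℕ) := fun i =>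
      (emb i).coprod (multiplesHom (Fin (m + 1) → ℕ) 1)
    have hg : ∀ i y c, g i (y, c) = emb i y + c • (1 : Fin (m + 1) → ℕ) := fun i y c => rfl
    have key : P = ⋃ i, g i '' ((AddMonoidHom.fst (Fin m → ℕ) ℕ) ⁻¹' P₀) := by
      ext x
      simp only [mem_iUnion, mem_image, mem_preimage, Prod.exists]
      constructor
      · intro hx
        obtain ⟨i, hi⟩ := Finite.exists_min x
        have hx' : x = emb i (fun j => x (i.succAbove j) - x i) + x i • (1 : Fin (m + 1) → ℕ) := by
          funext j
          simp only [Pi.add_apply, Pi.smul_apply, Pi.one_apply, smul_eq_mul, mul_one]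
          refine Fin.succAboveCases i ?_ (fun j => ?_) j
          · rw [emb_self, zero_add]
          · rw [emb_succAbove]
            have := hi (i.succAbove j)
            omega
        refine ⟨i, fun j => x (i.succAbove j) - x i, x i, ?_, ?_⟩
        · show (fun j => x (i.succAbove j) - x i) ∈ P₀
          rw [← hemb i, mem_preimage, hadd (x i), ← hx']
          exact hx
        · rw [hg]; exact hx'.symm
      · rintro ⟨i, y, c, hy, rfl⟩
        have hy' : y ∈ P₀ := hy
        rw [← hemb i] at hy'
        rw [hg, ← hadd c]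
        exact hy'
    rw [key]
    exact IsSemilinearSet.iUnion fun i => (h.preimage (AddMonoidHom.fst (Fin m → ℕ) ℕ)).image (g i)

/-- **The theorem.** Let `P` be the set of the P-positions of the game on `n` piles in which a move
removes one token from each of exactly `k ≥ 1` nonempty piles.
(1) For every `B` the set of the P-positions with at most `k` piles of more than `B` tokens is
semilinear.
(2) Let `J` be a set of fewer than `k` piles and `P'` the set of the P-positions of the game on the
piles outside of `J` in which a move removes one token from each of at least `k - |J|` and at most `k`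
nonempty piles. If `k - |J|` times the number of tokens of each pile of `J` is at least the number of
tokens of all the piles outside of `J` together, then `x` is in `P` if and only if it is in `P'`.
(3), (4) Let `J` be a set of `k - 1` piles such that each pile of `J` has at least as many tokens as all
the piles outside of `J` together. If `n < 2 k`, then `x` is in `P` if and only if each pile outside of
`J` has an even number of tokens; if `n = 2 k`, then `x` is in `P` if and only if these numbers of
tokens all have the same parity.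
(5) Let `n = 2 k`. Then `x` is in `P` if and only if `x + (1, ..., 1)` is in `P`, and `P` is semilinear
if and only if the set of the P-positions of the game on `2 k - 1` piles (with the same `k`) is. -/
theorem result (n k : ℕ) (hk : 1 ≤ k) (P : Set (Fin n → ℕ)) (hP : IsPPos n k P) :
    (∀ B : ℕ, IsSemilinearSet {x ∈ P | (Finset.univ.filter fun i => B < x i).card ≤ k}) ∧
    (∀ J : Finset (Fin n), J.card < k → ∀ P' : Set (Fin n → ℕ), IsSlowPPos J (k - J.card) k P' →
      ∀ x : Fin n → ℕ, (∀ j ∈ J, ∑ i ∈ Jᶜ, x i ≤ (k - J.card) * x j) → (x ∈ P ↔ x ∈ P')) ∧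
    (∀ J : Finset (Fin n), J.card + 1 = k → n < 2 * k →
      ∀ x : Fin n → ℕ, (∀ j ∈ J, ∑ i ∈ Jᶜ, x i ≤ x j) → (x ∈ P ↔ ∀ i ∉ J, Even (x i))) ∧
    (∀ J : Finset (Fin n), J.card + 1 = k → n = 2 * k →
      ∀ x : Fin n → ℕ, (∀ j ∈ J, ∑ i ∈ Jᶜ, x i ≤ x j) →
        (x ∈ P ↔ ∀ i ∉ J, ∀ i' ∉ J, x i % 2 = x i' % 2)) ∧
    (n = 2 * k → (∀ x : Fin n → ℕ, x ∈ P ↔ (fun i => x i + 1) ∈ P) ∧
      ∀ P₀ : Set (Fin (2 * k - 1) → ℕ), IsPPos (2 * k - 1) k P₀ →
        (IsSemilinearSet P ↔ IsSemilinearSet P₀)) := by
  refine ⟨fun B => bounded_semilinear hk hP B, fun J hJ P' hP' => cone hP J hJ P' hP',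
    fun J hJ hn x hx => ?_, fun J hJ hn x hx => ?_, fun hn => ⟨fun x => add_one_iff hk hn hP x, ?_⟩⟩
  · have h1 : k - J.card = 1 := by omega
    have h2 : Jᶜ.card ≤ k := by rw [Finset.card_compl, Fintype.card_fin]; omega
    have h3 := slow_even (k := k) J h2
    rw [← h1] at h3
    exact cone hP J (by omega) _ h3 x (by simpa [h1] using hx)
  · have h1 : k - J.card = 1 := by omega
    have h2 : Jᶜ.card = k + 1 := by rw [Finset.card_compl, Fintype.card_fin]; omega
    have h3 := slow_parity (k := k) J h2
    rw [← h1] at h3
    exact cone hP J (by omega) _ h3 x (by simpa [h1] using hx)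
  · intro P₀ hP₀
    have hm : 2 * k - 1 + 1 = 2 * k := by omega
    obtain rfl : n = 2 * k - 1 + 1 := by omega
    exact semilinear_iff hk hm hP hP₀

end Pool.Agent.Results.MP_ab1118_co.SlicesAndCones
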